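import Mathlib
import Pool.Agent.Helper4.QN.Defs

/-! QN-45: two inequalities for the logarithm of weighted Gram determinants. -/

set_option autoImplicit false

namespace Pool.Agent.Helper44.QN

open scoped BigOperators RealInnerProductSpace
open Pool.Agent.Helper4.QN

theorem QN45_inner {d : ℕ} (x y : EuclideanSpace ℝ (Fin d)) :
    ⟪x, y⟫ = dotProduct x.ofLp y.ofLp := by
  rw [EuclideanSpace.inner_eq_star_dotProduct, dotProduct_comm]
  simp

theorem QN45_quad {d n : ℕ} (w : Fin n → ℝ) (v : Fin n → EuclideanSpace ℝ (Fin d))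
    (e : EuclideanSpace ℝ (Fin d)) :
    dotProduct e.ofLp ((gm w v).mulVec e.ofLp) = ∑ j, w j * ⟪v j, e⟫ ^ 2 := by
  unfold gm
  rw [Matrix.sum_mulVec, dotProduct_sum]
  refine Finset.sum_congr rfl fun j _ => ?_
  rw [Matrix.smul_mulVec, dotProduct_smul, Matrix.vecMulVec_mulVec, QN45_inner]
  simp only [op_smul_eq_smul, dotProduct_smul, smul_eq_mul]
  rw [dotProduct_comm e.ofLp (v j).ofLp]
  ring

theorem QN45_herm {d n : ℕ} (w : Fin n → ℝ) (v : Fin n → EuclideanSpace ℝ (Fin d)) :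
    (gm w v).IsHermitian := by
  unfold gm Matrix.IsHermitian
  rw [Matrix.conjTranspose_sum]
  refine Finset.sum_congr rfl fun j _ => ?_
  ext a b
  simp [Matrix.vecMulVec_apply, mul_comm]

/-- The whitening matrix. -/
theorem QN45_white {d n : ℕ} (v : Fin n → EuclideanSpace ℝ (Fin d))
    (hM : 0 < (gm (fun _ => 1) v).det) :
    ∃ B : Matrix (Fin d) (Fin d) ℝ, B * gm (fun _ => 1) v * B.transpose = 1 ∧
      (gm (fun _ => 1) v)⁻¹ = B.transpose * B ∧
      B.det ^ 2 * (gm (fun _ => 1) v).det = 1 := by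
  classical
  open scoped MatrixOrder in
  set M := gm (fun _ => 1) v with hMdef
  have hps : M.PosSemidef := by
    rw [Matrix.posSemidef_iff_dotProduct_mulVec]
    refine ⟨QN45_herm _ _, fun x => ?_⟩
    have h := QN45_quad (fun _ => 1) v (WithLp.toLp 2 x)
    simp only [star_trivial]
    rw [← hMdef] at h
    simp only [one_mul] at h
    rw [h]
    exact Finset.sum_nonneg fun j _ => sq_nonneg _
  obtain ⟨C, hC⟩ : ∃ C : Matrix (Fin d) (Fin d) ℝ, M = star C * C :=
    CStarAlgebra.nonneg_iff_eq_star_mul_self.mp hps.nonneg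
  have hstar : star C = C.transpose := by
    rw [Matrix.star_eq_conjTranspose, Matrix.conjTranspose_eq_transpose_of_trivial]
  rw [hstar] at hC
  have hdet : M.det = C.det ^ 2 := by
    rw [hC, Matrix.det_mul, Matrix.det_transpose]
    ring
  have hC0 : C.det ≠ 0 := by
    intro h
    rw [hdet, h] at hM
    norm_num at hM
  have hCu : IsUnit C.det := isUnit_iff_ne_zero.mpr hC0
  have hCTu : IsUnit C.transpose.det := by rwa [Matrix.det_transpose]
  refine ⟨(C.transpose)⁻¹, ?_, ?_, ?_⟩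
  · rw [hC, Matrix.transpose_nonsing_inv, Matrix.transpose_transpose, ← Matrix.mul_assoc,
      Matrix.nonsing_inv_mul _ hCTu, Matrix.one_mul, Matrix.mul_nonsing_inv _ hCu]
  · rw [hC, Matrix.mul_inv_rev, Matrix.transpose_nonsing_inv, Matrix.transpose_transpose]
  · rw [hdet, Matrix.det_nonsing_inv, Matrix.det_transpose, Ring.inverse_eq_inv']
    field_simp

/-- Conjugation. -/
theorem QN45_conj {d n : ℕ} (w : Fin n → ℝ) (v : Fin n → EuclideanSpace ℝ (Fin d))
    (B : Matrix (Fin d) (Fin d) ℝ) :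
    gm w (fun j => WithLp.toLp 2 (B.mulVec (v j).ofLp)) = B * gm w v * B.transpose := by
  unfold gm
  rw [Matrix.mul_sum, Matrix.sum_mul]
  refine Finset.sum_congr rfl fun j _ => ?_
  rw [Matrix.mul_smul, Matrix.smul_mul, Matrix.mul_vecMulVec, Matrix.vecMulVec_mul,
    Matrix.vecMul_transpose]

/-- The spectral data of the whitened matrix. -/
theorem QN45_spec {d n : ℕ} (v : Fin n → EuclideanSpace ℝ (Fin d))
    (hM : 0 < (gm (fun _ => 1) v).det) (w : Fin n → ℝ) :
    ∃ p : Fin d → Fin n → ℝ, (∀ k j, 0 ≤ p k j) ∧ (∀ k, ∑ j, p k j = 1) ∧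
      (∀ j, ∑ k, p k j = bi (gm (fun _ => 1) v) (v j) (v j)) ∧
      (gm w v).det = (gm (fun _ => 1) v).det * ∏ k, ∑ j, w j * p k j := by
  classical
  obtain ⟨B, hB1, hB2, hB3⟩ := QN45_white v hM
  set z : Fin n → EuclideanSpace ℝ (Fin d) := fun j => WithLp.toLp 2 (B.mulVec (v j).ofLp)
    with hz
  have hz1 : gm (fun _ => 1) z = 1 := by rw [hz, QN45_conj, hB1]
  have hX := QN45_herm w z
  set e := hX.eigenvectorBasis with he
  refine ⟨fun k j => ⟪z j, e k⟫ ^ 2, fun k j => sq_nonneg _, fun k => ?_, fun j => ?_, ?_⟩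
  · have h := QN45_quad (fun _ => 1) z (e k)
    rw [hz1, Matrix.one_mulVec, ← QN45_inner, real_inner_self_eq_norm_sq,
      e.orthonormal.1 k] at h
    simp only [one_mul] at h
    rw [← h]
    norm_num
  · have h := e.sum_sq_norm_inner_left (z j)
    have h2 : ∑ k, ⟪z j, e k⟫ ^ 2 = ‖z j‖ ^ 2 := by
      rw [← h]
      refine Finset.sum_congr rfl fun k _ => ?_
      rw [Real.norm_eq_abs, sq_abs]
    rw [h2, ← real_inner_self_eq_norm_sq, QN45_inner, hz]
    unfold bi
    rw [hB2]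
    simp only
    rw [← Matrix.mulVec_mulVec, Matrix.dotProduct_mulVec (v j).ofLp, Matrix.vecMul_transpose]
  · have h1 : (gm w z).det = B.det ^ 2 * (gm w v).det := by
      rw [hz, QN45_conj, Matrix.det_mul, Matrix.det_mul, Matrix.det_transpose]
      ring
    have h2 := hX.det_eq_prod_eigenvalues
    have h3 : ∀ k, hX.eigenvalues k = ∑ j, w j * ⟪z j, e k⟫ ^ 2 := by
      intro k
      have h4 := hX.eigenvalues_eq k
      rw [h4, ← QN45_quad w z (e k)]
      simp [he]
    have h5 : (gm w z).det = ∏ k, ∑ j, w j * ⟪z j, e k⟫ ^ 2 := by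
      rw [h2]
      refine Finset.prod_congr rfl fun k _ => ?_
      rw [← h3 k]
      simp
    rw [← h5, h1, ← mul_assoc, mul_comm _ (B.det ^ 2), hB3, one_mul]

theorem QN45_pos {d n : ℕ} {w : Fin n → ℝ} (hw : ∀ j, 0 < w j) {p : Fin d → Fin n → ℝ}
    (h0 : ∀ k j, 0 ≤ p k j) (h1 : ∀ k, ∑ j, p k j = 1) (k : Fin d) :
    0 < ∑ j, w j * p k j := by
  have h2 : ∃ j ∈ Finset.univ, p k j ≠ 0 := by
    apply Finset.exists_ne_zero_of_sum_ne_zero
    rw [h1 k]
    norm_num
  obtain ⟨j, hj, hne⟩ := h2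
  exact Finset.sum_pos' (fun i _ => mul_nonneg (hw i).le (h0 k i))
    ⟨j, hj, mul_pos (hw j) (lt_of_le_of_ne (h0 k j) (Ne.symm hne))⟩

/-- QN-4 (tangent inequality for log det). -/
theorem logdet_le {d n : ℕ} (v : Fin n → EuclideanSpace ℝ (Fin d))
    (hM : 0 < (gm (fun _ => 1) v).det) (w : Fin n → ℝ) (hw : ∀ j, 0 < w j) :
    0 < (gm w v).det ∧
    Real.log (gm w v).det ≤ Real.log (gm (fun _ => 1) v).det +
      ∑ j, (w j - 1) * bi (gm (fun _ => 1) v) (v j) (v j) := by
  obtain ⟨p, h0, h1, h2, h3⟩ := QN45_spec v hM w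
  have hpos := QN45_pos hw h0 h1
  have hprod : 0 < ∏ k, ∑ j, w j * p k j := Finset.prod_pos fun k _ => hpos k
  refine ⟨by rw [h3]; positivity, ?_⟩
  rw [h3, Real.log_mul hM.ne' hprod.ne', Real.log_prod (fun k _ => (hpos k).ne')]
  have h4 : ∑ k, Real.log (∑ j, w j * p k j) ≤ ∑ k, (∑ j, w j * p k j - ∑ j, p k j) := by
    refine Finset.sum_le_sum fun k _ => ?_
    rw [h1 k]
    exact Real.log_le_sub_one_of_pos (hpos k)
  have h5 : ∑ k, (∑ j, w j * p k j - ∑ j, p k j) =
      ∑ j, (w j - 1) * bi (gm (fun _ => 1) v) (v j) (v j) := by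
    simp only [← h2, Finset.mul_sum, ← Finset.sum_sub_distrib]
    rw [Finset.sum_comm]
    refine Finset.sum_congr rfl fun j _ => Finset.sum_congr rfl fun k _ => ?_
    ring
  linarith

/-- QN-5 (weighted determinant, lower bound). -/
theorem logdet_ge {d n : ℕ} (v : Fin n → EuclideanSpace ℝ (Fin d))
    (hM : 0 < (gm (fun _ => 1) v).det) (w : Fin n → ℝ) (hw : ∀ j, 0 < w j) :
    Real.log (gm (fun _ => 1) v).det +
        ∑ j, bi (gm (fun _ => 1) v) (v j) (v j) * Real.log (w j) ≤ Real.log (gm w v).det := by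
  obtain ⟨p, h0, h1, h2, h3⟩ := QN45_spec v hM w
  have hpos := QN45_pos hw h0 h1
  have hprod : 0 < ∏ k, ∑ j, w j * p k j := Finset.prod_pos fun k _ => hpos k
  rw [h3, Real.log_mul hM.ne' hprod.ne', Real.log_prod (fun k _ => (hpos k).ne')]
  have h4 : ∑ k, ∑ j, p k j * Real.log (w j) ≤ ∑ k, Real.log (∑ j, w j * p k j) := by
    refine Finset.sum_le_sum fun k _ => ?_
    have h5 := strictConcaveOn_log_Ioi.concaveOn.le_map_sum (t := Finset.univ) (w := p k)
      (p := w) (fun j _ => h0 k j) (h1 k) (fun j _ => hw j)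
    simp only [smul_eq_mul] at h5
    refine h5.trans (le_of_eq ?_)
    congr 1
    exact Finset.sum_congr rfl fun j _ => mul_comm _ _
  have h5 : ∑ k, ∑ j, p k j * Real.log (w j) =
      ∑ j, bi (gm (fun _ => 1) v) (v j) (v j) * Real.log (w j) := by
    simp only [← h2, Finset.sum_mul]
    rw [Finset.sum_comm]
  linarith

end Pool.Agent.Helper44.QN
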